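import Pool.Agent.H63.TC2

set_option autoImplicit false

namespace Pool.Agent.Results.MP_91c91a_lc.Order

open Pool.Agent.H63.TC Filter Topology

theorem up (k m : ℕ) (hm : 2 ≤ m) : (g k m : ℝ) ≤ 112 * k ^ 2 * m ^ 2 / Real.log m := by
  have h := upper_nat (G_greatest k m).1
  have hm' : (2 : ℝ) ≤ m := by exact_mod_cast hm
  have hl : 0 < Real.log m := Real.log_pos (by linarith)
  rw [le_div_iff₀ hl]
  set s := Nat.log 2 (m + 1) / 2 + 1 with hs
  have h1 : m < 2 ^ (2 * s) := by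
    have := Nat.lt_pow_succ_log_self (b := 2) (by norm_num) (m + 1)
    have h3 : 2 ^ (Nat.log 2 (m + 1)).succ ≤ 2 ^ (2 * s) :=
      Nat.pow_le_pow_right (by norm_num) (by omega)
    omega
  have h2 : Real.log m ≤ 2 * s := by
    have : (m : ℝ) ≤ 2 ^ (2 * s) := by exact_mod_cast h1.le
    have h4 := Real.log_le_log (by linarith) this
    rw [Real.log_pow] at h4
    have h5 : Real.log 2 ≤ 1 := by have := Real.log_two_lt_d9; linarith
    push_cast at h4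
    have : (0 : ℝ) ≤ s := Nat.cast_nonneg _
    nlinarith
  have h6 : (g k m : ℝ) * s ≤ 14 * k ^ 2 * (m + 1) ^ 2 := by exact_mod_cast h
  have h7 : ((m : ℝ) + 1) ^ 2 ≤ 4 * m ^ 2 := by nlinarith
  have h8 : (0 : ℝ) ≤ g k m := Nat.cast_nonneg _
  have h9 : (0 : ℝ) ≤ (k : ℝ) ^ 2 := by positivity
  calc (g k m : ℝ) * Real.log m ≤ g k m * (2 * s) := by gcongr
    _ = 2 * (g k m * s) := by ring
    _ ≤ 2 * (14 * k ^ 2 * (4 * m ^ 2)) := by nlinarith
    _ = _ := by ring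

theorem low (k m : ℕ) (hm : 3250 * (k + 2) ^ 5 ≤ m) :
    Real.log 2 / 1372 * m ^ 2 / Real.log m ≤ g (k + 2) m := by
  have hK : 1 ≤ (k + 2) ^ 5 := Nat.one_le_pow _ _ (by omega)
  set n := (m - 1) / 7 with hn
  have n2 : 2 ≤ n := by omega
  have h := lower_nat k m n (by omega) (by omega)
  have hu := upper_nat (G_greatest (k + 2) m).1
  set t := g (k + 2) m with ht
  set K := k + 2 with hKd
  have t0 : 1 ≤ t := by
    by_contra h0
    have : t = 0 := by omega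
    rw [this] at h
    have h4 : 2 ^ 4 ≤ 2 ^ (n * n) := Nat.pow_le_pow_right (by norm_num) (by nlinarith)
    simp at h
    omega
  have a1 : t ≤ 14 * K ^ 2 * (m + 1) ^ 2 := le_trans (Nat.le_mul_of_pos_right _ (by omega)) hu
  have m1 : 1 ≤ m := by omega
  have K1 : 1 ≤ K := by omega
  have a2 : t + 1 ≤ 57 * (K ^ 2 * m ^ 2) := by
    have : (m + 1) ^ 2 ≤ 4 * m ^ 2 := by nlinarith
    have : 1 ≤ K ^ 2 * m ^ 2 := Nat.one_le_iff_ne_zero.2 (by positivity)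
    nlinarith
  have a3 : (t + 1) * K * (t + 1) + 1 ≤ m ^ 5 := by
    have : 1 ≤ K ^ 5 * m ^ 4 := Nat.one_le_iff_ne_zero.2 (by positivity)
    calc (t + 1) * K * (t + 1) + 1 ≤ (57 * (K ^ 2 * m ^ 2)) * K * (57 * (K ^ 2 * m ^ 2)) + K ^ 5 * m ^ 4 := by
          gcongr
      _ = (3250 * K ^ 5) * m ^ 4 := by ring
      _ ≤ m * m ^ 4 := by gcongr
      _ = m ^ 5 := by ring
  have a4 : (t + 1) * 2 ^ (t + 1) ≤ m ^ (t + 1) := by
    calc (t + 1) * 2 ^ (t + 1) ≤ 2 ^ (t + 1) * 2 ^ (t + 1) :=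
          Nat.mul_le_mul_right _ (Nat.lt_two_pow_self).le
      _ = 4 ^ (t + 1) := by rw [← mul_pow]; norm_num
      _ ≤ m ^ (t + 1) := Nat.pow_le_pow_left (by omega) _
  have a5 : 2 ^ (n * n) ≤ m ^ (7 * t) := by
    calc 2 ^ (n * n) ≤ m ^ (t + 1) * (m ^ 5) ^ t := h.trans (by gcongr)
      _ = m ^ (6 * t + 1) := by rw [← pow_mul, ← pow_add]; congr 1; ring
      _ ≤ m ^ (7 * t) := Nat.pow_le_pow_right m1 (by omega)
  have hm' : (2 : ℝ) ≤ m := by exact_mod_cast (by omega : 2 ≤ m)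
  have hl : 0 < Real.log m := Real.log_pos (by linarith)
  have a6 : ((2 : ℝ)) ^ (n * n) ≤ (m : ℝ) ^ (7 * t) := by exact_mod_cast a5
  have a7 := Real.log_le_log (by positivity) a6
  rw [Real.log_pow, Real.log_pow] at a7
  push_cast at a7
  have a8 : (m : ℝ) ≤ 14 * n := by exact_mod_cast (by omega : m ≤ 14 * n)
  have l2 : 0 < Real.log 2 := Real.log_pos (by norm_num)
  rw [div_le_iff₀ hl]
  have a9 : (m : ℝ) ^ 2 ≤ 196 * (n * n) := by nlinarith
  calc Real.log 2 / 1372 * (m : ℝ) ^ 2 ≤ Real.log 2 / 1372 * (196 * (n * n)) := by gcongr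
    _ = (n * n * Real.log 2) / 7 := by ring
    _ ≤ (7 * t * Real.log m) / 7 := by gcongr
    _ = t * Real.log m := by ring

/-- The worst case is attained; it is `O(m²/log m)` for every `k`, `Ω(m²/log m)` for every `k ≥ 2`,
and `g_k(m)/m² → 0` for every `k`. -/
theorem result :
    (∀ k m : ℕ, IsGreatest (G k m) (g k m)) ∧
    (∀ k : ℕ, ∃ C : ℝ, ∀ m : ℕ, 2 ≤ m → (g k m : ℝ) ≤ C * (m : ℝ) ^ 2 / Real.log m) ∧
    (∀ k : ℕ, 2 ≤ k → ∃ c : ℝ, 0 < c ∧
      ∀ᶠ m : ℕ in atTop, c * (m : ℝ) ^ 2 / Real.log m ≤ (g k m : ℝ)) ∧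
    (∀ k : ℕ, Tendsto (fun m : ℕ => (g k m : ℝ) / (m : ℝ) ^ 2) atTop (𝓝 0)) := by
  refine ⟨G_greatest, fun k => ⟨112 * k ^ 2, up k⟩, fun k hk => ?_, fun k => ?_⟩
  · obtain ⟨k, rfl⟩ := Nat.exists_eq_add_of_le' hk
    exact ⟨Real.log 2 / 1372, div_pos (Real.log_pos (by norm_num)) (by norm_num),
      eventually_atTop.2 ⟨_, low k⟩⟩
  · have h1 : Tendsto (fun m : ℕ => (112 * (k : ℝ) ^ 2) / Real.log m) atTop (𝓝 0) :=
      (Real.tendsto_log_atTop.comp tendsto_natCast_atTop_atTop).const_div_atTop _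
    refine tendsto_of_tendsto_of_tendsto_of_le_of_le' tendsto_const_nhds h1
      (Eventually.of_forall fun m => by positivity) (eventually_atTop.2 ⟨2, fun m hm => ?_⟩)
    have hm' : (2 : ℝ) ≤ m := by exact_mod_cast hm
    rw [div_le_iff₀ (by positivity)]
    have := up k m hm
    calc (g k m : ℝ) ≤ _ := this
      _ = _ := by ring

end Pool.Agent.Results.MP_91c91a_lc.Order
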